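import Mathlib
import Pool.Agent.Helper56.UN.St

set_option autoImplicit false

namespace Helper33.UN

open Pool.Agent.Helper56.UN Pool.Agent.Helper71.UN

/-- every point of the circle is a limit of integer powers -/
theorem dnA (z : ℂ) (hz : ‖z‖ = 1) (hn : ∀ n : ℕ, n ≠ 0 → z ^ n ≠ 1) (u : ℂ) (hu : ‖u‖ = 1)
    (ρ : ℝ) (hρ : 0 < ρ) : ∃ a : ℤ, ‖z ^ a - u‖ < ρ := by
  have hzθ : z = Complex.exp ((z.arg : ℂ) * Complex.I) := by
    have := Complex.norm_mul_exp_arg_mul_I z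
    rw [hz] at this
    simpa using this.symm
  have huφ : u = Complex.exp ((u.arg : ℂ) * Complex.I) := by
    have := Complex.norm_mul_exp_arg_mul_I u
    rw [hu] at this
    simpa using this.symm
  set θ : ℝ := z.arg with hθ
  set φ : ℝ := u.arg with hφ
  have hirr : Irrational (θ / (2 * Real.pi)) := by
    rintro ⟨r, hr⟩
    have hpi : (2 * Real.pi) ≠ 0 := by positivity
    have h1 : θ * r.den = 2 * Real.pi * r.num := by
      have h2 : (r : ℝ) = (r.num : ℝ) / (r.den : ℝ) := by exact_mod_cast (Rat.num_div_den r).symm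
      have h3 : ((r.den : ℕ) : ℝ) ≠ 0 := by exact_mod_cast r.den_ne_zero
      rw [h2] at hr
      field_simp at hr
      linarith
    refine hn r.den r.den_ne_zero ?_
    rw [hzθ, ← Complex.exp_nat_mul, Complex.exp_eq_one_iff]
    refine ⟨r.num, ?_⟩
    have h4 : ((θ : ℂ)) * (r.den : ℂ) = 2 * (Real.pi : ℂ) * (r.num : ℂ) := by exact_mod_cast h1
    linear_combination Complex.I * h4
  have hd := (dense_addSubgroupClosure_pair_iff (a := θ) (b := 2 * Real.pi)).2 hirr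
  obtain ⟨s, hs1, hs2⟩ := Metric.dense_iff.1 hd φ ρ hρ
  obtain ⟨a, b, hab⟩ := AddSubgroup.mem_closure_pair.1 hs2
  refine ⟨a, ?_⟩
  have h5 : z ^ a = Complex.exp ((s : ℂ) * Complex.I) := by
    rw [hzθ, ← Complex.exp_int_mul, ← hab, Complex.exp_eq_exp_iff_exists_int]
    refine ⟨-b, ?_⟩
    simp only [zsmul_eq_mul]
    push_cast
    ring
  have h6 : z ^ a - u = Complex.exp ((φ : ℂ) * Complex.I) *
      (Complex.exp (Complex.I * ((s - φ : ℝ) : ℂ)) - 1) := by
    rw [h5, mul_sub, mul_one, ← Complex.exp_add]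
    conv_lhs => rw [huφ]
    congr 2
    push_cast
    ring
  rw [h6, norm_mul, Complex.norm_exp_ofReal_mul_I, one_mul]
  refine (Real.norm_exp_I_mul_ofReal_sub_one_le).trans_lt ?_
  rw [Real.norm_eq_abs]
  rw [Metric.mem_ball, Real.dist_eq] at hs1
  exact hs1

theorem dnPow (w : ℂ) (hw : ‖w‖ = 1) (m : ℕ) : ‖w ^ m - 1‖ ≤ m * ‖w - 1‖ := by
  induction m with
  | zero => simp
  | succ m ih =>
    have h1 : w ^ (m + 1) - 1 = w * (w ^ m - 1) + (w - 1) := by ring
    rw [h1]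
    refine (norm_add_le _ _).trans ?_
    rw [norm_mul, hw, one_mul]
    push_cast
    nlinarith [ih]

/-- powers with nonzero exponent near one -/
theorem dnB (z : ℂ) (hz : ‖z‖ = 1) (hn : ∀ n : ℕ, n ≠ 0 → z ^ n ≠ 1)
    (ρ : ℝ) (hρ : 0 < ρ) : ∃ k : ℕ, k ≠ 0 ∧ ‖z ^ k - 1‖ < ρ := by
  obtain ⟨ε, hε, hε1, hε2⟩ : ∃ ε : ℝ, 0 < ε ∧ ε < ρ / 3 ∧ ε < 1 :=
    ⟨min (ρ / 6) (1 / 2), by positivity, lt_of_le_of_lt (min_le_left _ _) (by linarith),
      lt_of_le_of_lt (min_le_right _ _) (by norm_num)⟩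
  set u : ℂ := Complex.exp (Complex.I * (ε : ℂ)) with hu
  have hu1 : ‖u‖ = 1 := by
    rw [hu, mul_comm]
    exact Complex.norm_exp_ofReal_mul_I ε
  have hu2 : ‖u - 1‖ ≤ ε := by
    have := Real.norm_exp_I_mul_ofReal_sub_one_le (x := ε)
    rwa [Real.norm_eq_abs, abs_of_pos hε] at this
  have hu3 : u ≠ 1 := by
    intro h
    rw [hu, Complex.exp_eq_one_iff] at h
    obtain ⟨n, hn'⟩ := h
    have h1 : (ε : ℂ) = n * (2 * Real.pi) := by
      have h2 : Complex.I ≠ 0 := Complex.I_ne_zero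
      apply mul_left_cancel₀ h2
      linear_combination hn'
    have h3 : ε = n * (2 * Real.pi) := by exact_mod_cast h1
    have hpi := Real.pi_gt_three
    rcases lt_trichotomy n 0 with h | h | h
    · have : (n : ℝ) < 0 := by exact_mod_cast h
      nlinarith
    · rw [h] at h3
      simp at h3
      linarith
    · have : (1 : ℝ) ≤ n := by exact_mod_cast h
      nlinarith
  have hu4 : 0 < ‖u - 1‖ := norm_pos_iff.2 (sub_ne_zero.2 hu3)
  obtain ⟨a, ha⟩ := dnA z hz hn u hu1 (‖u - 1‖ / 2) (by positivity)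
  have ha0 : z ^ a ≠ 1 := by
    intro h
    rw [h, norm_sub_rev] at ha
    linarith
  have ha1 : ‖z ^ a - 1‖ < ρ := by
    have h1 : z ^ a - 1 = (z ^ a - u) + (u - 1) := by ring
    rw [h1]
    have := norm_add_le (z ^ a - u) (u - 1)
    linarith
  have ha2 : a ≠ 0 := by
    rintro rfl
    exact ha0 (zpow_zero z)
  have hz0 : z ≠ 0 := by
    rintro rfl
    simp at hz
  refine ⟨a.natAbs, Int.natAbs_ne_zero.2 ha2, ?_⟩
  rcases Int.natAbs_eq a with h | h
  · have h1 : z ^ a.natAbs = z ^ a := by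
      conv_rhs => rw [h]
      rw [zpow_natCast]
    rw [h1]
    exact ha1
  · have h1 : z ^ a = (z ^ a.natAbs)⁻¹ := by
      conv_lhs => rw [h]
      rw [zpow_neg, zpow_natCast]
    have h2 : ‖z ^ a.natAbs‖ = 1 := by rw [norm_pow, hz, one_pow]
    have h3 : z ^ a.natAbs ≠ 0 := pow_ne_zero _ hz0
    have h4 : z ^ a.natAbs - 1 = -(z ^ a.natAbs * (z ^ a - 1)) := by
      rw [h1]
      field_simp
      ring
    rw [h4, norm_neg, norm_mul, h2, one_mul]
    exact ha1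

theorem m_DN : StDN := by
  intro z hz hn u hu ρ hρ N
  have hz0 : z ≠ 0 := by
    rintro rfl
    simp at hz
  obtain ⟨a, ha⟩ := dnA z hz hn u hu (ρ / 2) (by positivity)
  set M : ℕ := N + a.natAbs + 1 with hM
  have hM0 : (0 : ℝ) < M := by
    rw [hM]; positivity
  obtain ⟨k, hk0, hk⟩ := dnB z hz hn (ρ / 2 / M) (by positivity)
  have hk1 : ‖z ^ (k * M) - 1‖ < ρ / 2 := by
    rw [pow_mul]
    have h1 := dnPow (z ^ k) (by rw [norm_pow, hz, one_pow]) M
    refine h1.trans_lt ?_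
    have h2 : (M : ℝ) * ‖z ^ k - 1‖ < M * (ρ / 2 / M) := by
      exact mul_lt_mul_of_pos_left hk hM0
    have h3 : (M : ℝ) * (ρ / 2 / M) = ρ / 2 := by field_simp
    rw [h3] at h2
    exact h2
  have hKM : M ≤ k * M := Nat.le_mul_of_pos_left M (Nat.pos_of_ne_zero hk0)
  have hnn : (N : ℤ) ≤ a + (k * M : ℕ) := by
    have h1 : -(a.natAbs : ℤ) ≤ a := by omega
    have h2 : (M : ℤ) ≤ ((k * M : ℕ) : ℤ) := by exact_mod_cast hKM
    have h3 : (M : ℤ) = N + a.natAbs + 1 := by rw [hM]; push_cast; ring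
    omega
  refine ⟨(a + (k * M : ℕ)).toNat, by omega, ?_⟩
  have h5 : z ^ (a + (k * M : ℕ)).toNat = z ^ a * z ^ (k * M) := by
    have h6 : (((a + (k * M : ℕ)).toNat : ℕ) : ℤ) = a + (k * M : ℕ) := by omega
    rw [← zpow_natCast, h6, zpow_add₀ hz0, zpow_natCast]
  rw [h5]
  have h7 : z ^ a * z ^ (k * M) - u = z ^ a * (z ^ (k * M) - 1) + (z ^ a - u) := by ring
  rw [h7]
  refine (norm_add_le _ _).trans_lt ?_
  rw [norm_mul, norm_zpow, hz, one_zpow, one_mul]
  linarith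

end Helper33.UN
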