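import Pool.Agent.Helper38.UN.St

/-! # Project UN, module WRW: rows of walls -/

set_option autoImplicit false

noncomputable section

namespace Pool.Agent.Helper33.UN38

open Pool.Agent.Helper71.UN Pool.Agent.Helper38.UN
open Set Filter Topology Matrix
open scoped ContDiff ComplexConjugate

private lemma wm_halfpi {p q : ℤ} (h : p ≠ q) (e : ℝ) (l : ℤ) (x y : Bool) :
    wm p q e (Real.pi / 2) l x y = if l = (if x then q else p) ∧ x = y then 1 else 0 := by
  unfold wm
  rw [Real.cos_pi_div_two, Real.sin_pi_div_two]
  by_cases h1 : l = q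
  · subst h1
    cases x <;> cases y <;> simp [h.symm]
  · by_cases h2 : l = p
    · subst h2
      cases x <;> cases y <;> simp [h]
    · cases x <;> cases y <;> simp [h1, h2]

private lemma wm_zero {p q : ℤ} (h : p ≠ q) (e : ℝ) (l : ℤ) (x y : Bool) :
    wm p q e 0 l x y = if l = (if x then p else q) ∧ x = y then 1 else 0 := by
  unfold wm
  rw [Real.cos_zero, Real.sin_zero]
  by_cases h1 : l = q
  · subst h1
    cases x <;> cases y <;> simp [h.symm]
  · by_cases h2 : l = p
    · subst h2
      cases x <;> cases y <;> simp [h]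
    · cases x <;> cases y <;> simp [h1, h2]

private lemma wm_swap {p q : ℤ} (h : p ≠ q) (e θ : ℝ) (l : ℤ) (x y : Bool) :
    wm q p (-e) (Real.pi / 2 - θ) l x y = wm p q e θ l x y := by
  unfold wm
  rw [Real.cos_pi_div_two_sub, Real.sin_pi_div_two_sub]
  by_cases h1 : l = q
  · subst h1
    cases x <;> cases y <;> simp [h.symm, mul_comm]
  · by_cases h2 : l = p
    · subst h2
      cases x <;> cases y <;> simp [h, mul_comm]
    · simp [h1, h2]

theorem hWRW : StWRW := by
  intro p q h e θ x v l u
  refine ⟨?_, ?_, ?_⟩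
  · unfold wrow prow
    rw [wm_halfpi h, wm_halfpi h]
    by_cases hu : u = 0
    · simp [hu]
    · cases x <;> simp [hu]
  · unfold wrow prow
    rw [wm_zero h, wm_zero h]
    by_cases hu : u = 0
    · simp [hu]
    · cases x <;> simp [hu]
  · unfold wrow
    rw [wm_swap h, wm_swap h]

end Pool.Agent.Helper33.UN38
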